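import Pool.Agent.Q220.TC.Glued

set_option autoImplicit false

/-!
# 2-connectivity is not expressible in transitive-closure logic without parameters
-/

namespace Pool.Agent.Results.MP_c527bb_lc.NotDefinable

open Pool.Agent.Q220.TC

lemma red_replicate (s : Let) (n : ℕ) : Red (List.replicate n s) := by
  induction n with
  | zero => trivial
  | succ n ih =>
    rw [List.replicate_succ, red_cons_iff]
    refine ⟨ih, fun t m h => ?_⟩
    cases n with
    | zero => simp at h
    | succ n =>
      rw [List.replicate_succ, List.cons.injEq] at h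
      rw [← h.1]
      exact (inv_ne s).symm

lemma card_ge {G : Type} [Group G] [Finite G] (g : Fin 2 → G) {K : ℕ} (h : NoRel g K) :
    K < Nat.card G := by
  have hinj : Function.Injective (fun n : Fin (K + 1) => g 0 ^ (n : ℕ)) := by
    have key : ∀ a b : ℕ, a < b → b < K + 1 → g 0 ^ a ≠ g 0 ^ b := by
      intro a b hab hb h1
      have h2 : g 0 ^ (b - a) = 1 := by
        have h3 : g 0 ^ b = g 0 ^ a * g 0 ^ (b - a) := by
          rw [← pow_add]; congr 1; omega
        rw [h3] at h1
        simpa using h1.symm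
      refine h (List.replicate (b - a) (0, true)) (red_replicate _ _) ?_ ?_ ?_
      · intro h4
        have h5 := congrArg List.length h4
        simp at h5
        omega
      · simp; omega
      · rw [word_replicate, h2]
    intro a b hab
    rcases lt_trichotomy (a : ℕ) b with h1 | h1 | h1
    · exact absurd hab (key _ _ h1 b.2)
    · exact Fin.ext h1
    · exact absurd hab.symm (key _ _ h1 a.2)
  have := Nat.card_le_card_of_injective _ hinj
  simpa using this

/-- For every sentence `ψ` of `TC^1_0` and every `N` there are finite connected graphs `G` and `H`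
with at least `N` vertices, `G` is 2-connected, `H` is not, and `ψ` has the same truth value in both.
Consequently no sentence of `TC^1_0` defines 2-connectivity on the finite graphs, not even on the
finite graphs with at least `N` vertices. -/
theorem result :
    (∀ (ψ : Fml 0) (N : ℕ), ∃ (V W : Type) (_ : Finite V) (_ : Finite W) (G : SimpleGraph V)
        (H : SimpleGraph W), N ≤ Nat.card V ∧ N ≤ Nat.card W ∧ G.Connected ∧ H.Connected ∧
          TwoConnected G ∧ ¬ TwoConnected H ∧
          (Sat G ψ (fun i => i.elim0) ↔ Sat H ψ (fun i => i.elim0))) ∧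
    (∀ N : ℕ, ¬ ∃ ψ : Fml 0, ∀ (V : Type) [Finite V] (G : SimpleGraph V), N ≤ Nat.card V →
        (Sat G ψ (fun i => i.elim0) ↔ TwoConnected G)) ∧
    ¬ ∃ ψ : Fml 0, ∀ (V : Type) [Finite V] (G : SimpleGraph V),
        (Sat G ψ (fun i => i.elim0) ↔ TwoConnected G) := by
  have main : ∀ (ψ : Fml 0) (N : ℕ), ∃ (V W : Type) (_ : Finite V) (_ : Finite W)
      (G : SimpleGraph V) (H : SimpleGraph W), N ≤ Nat.card V ∧ N ≤ Nat.card W ∧ G.Connected ∧
        H.Connected ∧ TwoConnected G ∧ ¬ TwoConnected H ∧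
        (Sat G ψ (fun i => i.elim0) ↔ Sat H ψ (fun i => i.elim0)) := by
    intro ψ N
    obtain ⟨K₀, hK₀⟩ := sentence_iff ψ
    obtain ⟨K, h1, h2, h3⟩ : ∃ K : ℕ, K₀ ≤ K ∧ 1 ≤ K ∧ N ≤ K :=
      ⟨K₀ + 1 + N, by omega, by omega, by omega⟩
    obtain ⟨p, hp, hodd⟩ : ∃ p : ℕ, 3 ^ K < p ∧ Odd p :=
      ⟨2 * 3 ^ K + 1, by have h0 : 0 < 3 ^ K := by positivity
                         omega, ⟨3 ^ K, rfl⟩⟩
    have : NeZero p := ⟨(Nat.zero_lt_of_lt hp).ne'⟩
    have hr := noRel_ggen p hp
    have hg := gen_ggen p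
    have hc := card_ge (ggen p) hr
    refine ⟨Gam p, Option (Bool × Gam p), inferInstance, inferInstance, (cay (ggen p)).graph,
      (glued (ggen p)).graph, by omega, ?_, cay_connected _ hr h2 hg, glued_connected _ hr h2 hg,
      cay_two _ hr h2 hg, glued_not_two _, ?_⟩
    · have h4 : Nat.card (Gam p) ≤ Nat.card (Option (Bool × Gam p)) :=
        Nat.card_le_card_of_injective (fun x => some (true, x)) (fun x y h => by simpa using h)
      omega
    · exact hK₀ _ _ _ _ ((cay_cls _ hr hg hodd (ggen_pow p)).mono h1)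
        ((glued_cls _ hr hg hodd (ggen_pow p)).mono h1) _ _
  refine ⟨main, ?_, ?_⟩
  · rintro N ⟨ψ, hψ⟩
    obtain ⟨V, W, hV, hW, G, H, h1, h2, -, -, h3, h4, h5⟩ := main ψ N
    exact h4 ((hψ W H h2).1 (h5.1 ((hψ V G h1).2 h3)))
  · rintro ⟨ψ, hψ⟩
    obtain ⟨V, W, hV, hW, G, H, h1, h2, -, -, h3, h4, h5⟩ := main ψ 0
    exact h4 ((hψ W H).1 (h5.1 ((hψ V G).2 h3)))

end Pool.Agent.Results.MP_c527bb_lc.NotDefinable
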